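import Pool.Agent.X295.PinkF

/-!
# MP_28d749_ag: Pink's conjecture for almost all members of the families of fibre products of
multisections of arbitrary elliptic schemes which degenerate along a hypersurface

Let `K ⊂ ℂ` be a field (for example a number field). We consider algebraic families with `q` parameters
`u = (u_1, …, u_q)` of abelian schemes and subvarieties (`Family`), given by
* a family `B_u ⊆ P^N` of projective algebraic sets of any dimension, defined by forms `G` with
  coefficients in `K[u_1, …, u_q]`,
* forms `A₄` and `A₆` of degrees `4 r` and `6 r` with coefficients in `K[u]`. They give the elliptic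
  scheme `E_u → B_u°` with the fibres `E_{u,y} : y'² = x³ + A₄(y) x + A₆(y)`, where `B_u°` is the open
  subset of `B_u` with `4 A₄³ + 27 A₆² ≠ 0`. (Every elliptic scheme over a quasi-projective variety
  over `K` is of this form over an open subset of the variety, `r = 0` gives the constant elliptic
  schemes.) Let `𝒜_u = E_u ×_B … ×_B E_u` be its `n`-th fibre power, an abelian scheme of relative
  dimension `n`,
* multisections with the numbers `i = 1, …, n`: the multisection with number `i` consists of all
  points `(y, P)` of `E_u` with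
  `c_i(u) (B_i(y) x(P)^(s_i) + ∑_{h < s_i} D_{i,h}(y) x(P)^h) = A_i(y)` (`eqn`; this
  means `B_i(y) = 0` at the origin `P = 0`), where `c_i ∈ K[u]`, and `B_i`, `D_{i,h}`, `A_i` are forms
  of degrees `w_i`, `w_i + 2 r (s_i - h)` and `w_i + 2 r s_i` with coefficients in `K[u]`.
The fibre product of these `n` multisections is the subvariety `X_u ⊆ 𝒜_u` (`OnX`); we exclude the
points `y` at which the equation of some multisection is trivial, over which `X_u` would contain whole
elliptic curves.

**The degenerate divisor.** Let `h` be a polynomial in `u` with integral coefficients, of degree at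
most `Δ`, irreducible over `ℂ`. The family degenerates along the hypersurface `h = 0` of the space of
parameters in the following sense (`DegeneratesAlongH`):
* `c_i` vanishes along `h = 0` exactly to the order `e_i`, and
* at one point `u` of the hypersurface `h = 0` (algebraic over `K`) no point of `B_u` lies on
  `m + 1` of the hypersurfaces `A_i B_i = 0` and the coordinate hyperplanes of `P^N`. (So `B_u` has
  dimension at most `m`.)

**Theorem.** Suppose that (`IndepP`) `2 e_i > s_i` and that `μ (e_i / s_i - e_j / s_j)` is not an
integer, for `i ≠ j` and all integers `μ` not divisible by `β`. Then, for each `ε > 0`, for all but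
`O(H^(q - 1 + Δ / β + ε))` of the integral vectors `u` with `|u_j| ≤ H`
* `X_u → B_u` has finite fibres, and over `B_u°` (and outside of the excluded points) the fibres
  are not empty (`FiniteFibres`, `NonemptyFibres`); so if `B_u°` has dimension `m`, then `X_u` has
  dimension `m`;
* `X_u` does not meet `𝒜_u^[>m]`, the union of all algebraic subgroups of codimension `> m` of all the
  fibres (`AvoidsSubgroups`), as in Pink's conjecture;
* for every `ρ` the intersection `X_u ∩ 𝒜_u^[≥ρ]` has dimension at most `m - ρ`, or is empty
  (`NoAtypical`). More precisely, if the point `(y, P)` of `X_u` over the complex numbers is in an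
  algebraic subgroup of codimension at least `ρ` of its fibre, then at most `m - ρ` of the ratios
  `y_j / y_{j0}` are algebraically independent over `K`. (The case `ρ = 1` says that no
  component of dimension `m` of `X_u` is in a strict group subscheme.)

The algebraic subgroups of the fibres `E_y^n` are given up to torsion by relations
`∑ a_l (P_l) = 0` with endomorphisms `a_l` of `E_y` as coefficients, also for the fibres with complex
multiplication (`InSubgroup`). An example for the conditions: `β` is a prime number larger than `Δ`,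
all `s_i` are equal to `β`, and the numbers `e_i > β / 2` are incongruent to each other modulo `β`. For
`n = 1` the exponent is `q - 1 + ε`.

The starting files on this problem are about positive proportions of the coefficient vectors of
all multisections of given degrees of one elliptic scheme; here the conclusion holds for almost all
members, with few exceptions, of any family with the degeneration described above, in which the base,
the elliptic scheme and the multisections can vary.

The proof: (a) elimination theory over the ring `K[u]`: general position at one point of `h = 0`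
gives general position modulo all large prime numbers `p` which divide `h(u)` and which do not
divide a certain number `ρ(u)`, where `ρ` does not contain one of the variables; (b) the number of
the `u` for which all such `p` have exponents divisible by `β` in `h(u)` is
`O(H^(q - 1 + Δ / β + ε))`; (c) at a place over such a prime number all but `m` of the points `P_i` are
in the formal group of an integral model of the curve, with values incongruent to each other
modulo the value of `p`, and relations with endomorphisms as coefficients between them are impossible.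
-/

set_option autoImplicit false

namespace Pool.Agent.Results.MP_28d749_ag.FamiliesOfMultisections

open MvPolynomial Pool.Agent.X295 Pool.Agent.X295.Pink
open Pool.Agent.X295.Leg (DegeneratesAlongH)

/-- The curve `y² = x³ + a x + b` over the complex numbers. -/
abbrev curve (a b : ℂ) : WeierstrassCurve.Affine ℂ := ⟨0, 0, 0, a, b⟩

/-- The `x`-coordinate of a point of the curve (`0` for the origin). -/
def xCoord {a b : ℂ} : (curve a b).Point → ℂ
  | .zero => 0
  | .some x _ _ => x

/-- The map `φ` of the points of the curve `y² = x³ + a x + b` to itself is given on the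
`x`-coordinates by a rational function `u / w` with `u(x) / w(x) ~ x / c²` for `x → ∞`. -/
def ActsByRational {a b : ℂ} (c : ℂ) (φ : (curve a b).Point → (curve a b).Point) : Prop :=
  ∃ u w : Polynomial ℂ, w ≠ 0 ∧ u.natDegree = w.natDegree + 1 ∧
    w.leadingCoeff = c ^ 2 * u.leadingCoeff ∧
    ∀ P : (curve a b).Point, P ≠ 0 → w.eval (xCoord P) ≠ 0 →
      φ P ≠ 0 ∧ xCoord (φ P) * w.eval (xCoord P) = u.eval (xCoord P)

/-- A ring of endomorphisms of the curve `y² = x³ + a x + b`: a ring `O` of complex numbers which
acts on the group of points. For an endomorphism which is multiplication by `λ` on the tangent space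
at the origin the number `λ` is an integer or an imaginary quadratic integer, in particular it
satisfies an equation `λ² - T λ + N = 0` with integers `T, N`, and if it is not an integer, the
`x`-coordinate of the image of a point is a rational function `u / w` of the `x`-coordinate of the
point, with `u(x) / w(x) ~ x / λ²` for `x → ∞`. (The integers in `O` act by multiplication, as `act`
is a homomorphism of rings.) -/
structure EndRing (a b : ℂ) where
  /-- the ring -/
  O : Subring ℂ
  /-- its action on the points -/
  act : O →+* AddMonoid.End (curve a b).Point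
  quad : ∀ c : O, ∃ T N : ℤ, (c : ℂ) ^ 2 - T * c + N = 0
  rat : ∀ c : O, (∀ n : ℤ, (c : ℂ) ≠ n) → ActsByRational c (act c)

/-- The coefficients `c_1, …, c_n` are a relation between the points `P_1, …, P_n` up to torsion:
the point `∑ c_l (P_l)` is a torsion point. -/
def EndRing.Relation {a b : ℂ} (E : EndRing a b) {n : ℕ} (c : Fin n → E.O)
    (P : Fin n → (curve a b).Point) : Prop :=
  ∃ t : ℕ, 0 < t ∧ t • ∑ l, E.act (c l) (P l) = 0

/-- The point `(P_1, …, P_n)` of the `n`-th power of the curve is in an algebraic subgroup of
codimension at least `ρ`: the module of the relations between the `P_l` over some ring of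
endomorphisms of the curve has rank at least `ρ`, it has `ρ` linearly independent elements. -/
def InSubgroup {a b : ℂ} {n : ℕ} (P : Fin n → (curve a b).Point) (ρ : ℕ) : Prop :=
  ∃ (E : EndRing a b) (c : Fin ρ → Fin n → E.O),
    LinearIndependent ℂ (fun i l => (c i l : ℂ)) ∧ ∀ i, E.Relation (c i) P

/-- The forms in `y_0, …, y_N` with coefficients in the ring of polynomials in the parameters. -/
abbrev Form (K : Subfield ℂ) (q N : ℕ) : Type := MvPolynomial (Fin (N + 1)) (MvPolynomial (Fin q) K)

/-- The value of a form at the parameter `u` and the point `y`. -/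
noncomputable def val {K : Subfield ℂ} {q N : ℕ} (u : Fin q → ℂ) (y : Fin (N + 1) → ℂ)
    (Q : Form K q N) : ℂ :=
  eval₂ (evalAt K u) y Q

/-- A family of fibre products of `n` multisections of elliptic schemes: the equations `G` of the
base, the coefficients `A₄`, `A₆` of the elliptic scheme, of weight `r`, and the equations
`c_i (B_i x^(s_i) + ∑_h D_{i,h} x^h) = A_i` of the multisections. -/
structure Family (K : Subfield ℂ) (κ : Type) (q N n : ℕ) where
  G : κ → Form K q N
  homG : ∀ k, ∃ d, (G k).IsHomogeneous d
  r : ℕ
  A₄ : Form K q N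
  A₆ : Form K q N
  hom₄ : A₄.IsHomogeneous (4 * r)
  hom₆ : A₆.IsHomogeneous (6 * r)
  s : Fin n → ℕ
  s_pos : ∀ i, 0 < s i
  w : Fin n → ℕ
  B : Fin n → Form K q N
  A : Fin n → Form K q N
  D : ∀ i, Fin (s i) → Form K q N
  homB : ∀ i, (B i).IsHomogeneous (w i)
  homA : ∀ i, (A i).IsHomogeneous (w i + 2 * r * s i)
  homD : ∀ i h, (D i h).IsHomogeneous (w i + 2 * r * (s i - h))
  c : Fin n → MvPolynomial (Fin q) K

section properties

variable {K : Subfield ℂ} {κ : Type} {q N n : ℕ} (X : Family K κ q N n) (u : Fin q → ℂ)

/-- The polynomial `c_i (B_i x^(s_i) + ∑_h D_{i,h} x^h) - A_i` in `x` at the point `y` of the base. -/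
noncomputable def Family.eqn (y : Fin (N + 1) → ℂ) (i : Fin n) : Polynomial ℂ :=
  Polynomial.C (evalAt K u (X.c i)) * (Polynomial.C (val u y (X.B i)) * Polynomial.X ^ X.s i +
    ∑ h : Fin (X.s i), Polynomial.C (val u y (X.D i h)) * Polynomial.X ^ (h : ℕ)) -
      Polynomial.C (val u y (X.A i))

/-- The fibre of the elliptic scheme at the point `y` of the base. -/
noncomputable abbrev Family.fibre (y : Fin (N + 1) → ℂ) : WeierstrassCurve.Affine ℂ :=
  curve (val u y X.A₄) (val u y X.A₆)

/-- The point `(y; P_1, …, P_n)` of the `n`-th fibre power is a point of `X_u`. -/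
def Family.OnX (y : Fin (N + 1) → ℂ) (P : Fin n → (X.fibre u y).Point) : Prop :=
  ∀ i, X.eqn u y i ≠ 0 ∧ ((P i = 0 ∧ val u y (X.B i) = 0) ∨
    (P i ≠ 0 ∧ (X.eqn u y i).eval (xCoord (P i)) = 0))

/-- The fibres of `X_u → B_u` are finite. -/
def Family.FiniteFibres : Prop :=
  ∀ y, OnB u X.G y → {P : Fin n → (X.fibre u y).Point | X.OnX u y P}.Finite

/-- The fibres of `X_u → B_u` at the points with smooth fibre `E_y` at which the equations of the
multisections are not trivial are not empty. -/
def Family.NonemptyFibres : Prop :=
  ∀ y, OnB u X.G y → 4 * val u y X.A₄ ^ 3 + 27 * val u y X.A₆ ^ 2 ≠ 0 →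
    (∀ i, X.eqn u y i ≠ 0) → ∃ P : Fin n → (X.fibre u y).Point, X.OnX u y P

/-- The variety `X_u` does not meet the algebraic subgroups of codimension `> m` of the fibres. -/
def Family.AvoidsSubgroups (m : ℕ) : Prop :=
  ∀ y, OnB u X.G y → ∀ P : Fin n → (X.fibre u y).Point, X.OnX u y P → ¬ InSubgroup P (m + 1)

/-- If the point `(y, P)` of `X_u` is in an algebraic subgroup of codimension at least `ρ` of its
fibre, then at most `m - ρ` of the ratios of the coordinates of `y` are algebraically independent
over `K`. -/
def Family.NoAtypical (m : ℕ) : Prop :=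
  ∀ y, OnB u X.G y → ∀ P : Fin n → (X.fibre u y).Point, X.OnX u y P →
    ∀ ρ : ℕ, InSubgroup P ρ → ∀ (j0 : Fin (N + 1)) (T : Finset (Fin (N + 1))),
      AlgebraicIndependent K (fun j : T => y j / y j0) → T.card + ρ ≤ m

end properties

theorem xCoord_eq {a b : ℂ} (P : (curve a b).Point) :
    xCoord P = Pool.Agent.W466.EP.xx (A := a) (B := b) P := by
  rcases P with _ | ⟨x, y, h⟩
  · rfl
  · rfl

/-- the ring of endomorphisms as in the helper files -/
def toE {a b : ℂ} (E : EndRing a b) : Pool.Agent.TH971.RF.EndRing a b where
  O := E.O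
  act := E.act
  quad := E.quad
  rat := by
    intro c hc
    obtain ⟨u, w, h1, h2, h3, h4⟩ := E.rat c hc
    refine ⟨u, w, h1, h2, h3, fun P hP hw => ?_⟩
    have e1 : xCoord (a := a) (b := b) P = Pool.Agent.W466.EP.xx (A := a) (B := b) P := xCoord_eq P
    have hw' : w.eval (xCoord (a := a) (b := b) P) ≠ 0 := by rw [e1]; exact hw
    have h5 := h4 P hP hw'
    have e2 : xCoord (a := a) (b := b) (E.act c P) =
      Pool.Agent.W466.EP.xx (A := a) (B := b) (E.act c P) := xCoord_eq _
    rw [e1, e2] at h5
    exact h5

/-- the module of the relations -/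
def relMod {a b : ℂ} (E : EndRing a b) {q : ℕ} (P : Fin q → (curve a b).Point) :
    Submodule E.O (Fin q → E.O) where
  carrier := {c | E.Relation c P}
  zero_mem' := ⟨1, one_pos, by simp⟩
  add_mem' := by
    rintro c c' ⟨t, ht, h⟩ ⟨t', ht', h'⟩
    refine ⟨t * t', Nat.mul_pos ht ht', ?_⟩
    have e1 : ∑ l, E.act ((c + c') l) (P l) = ∑ l, E.act (c l) (P l) + ∑ l, E.act (c' l) (P l) := by
      rw [← Finset.sum_add_distrib]
      refine Finset.sum_congr rfl fun l _ => ?_
      rw [Pi.add_apply, map_add]
      rfl
    rw [e1, nsmul_add, mul_nsmul, h, mul_comm t t', mul_nsmul, h', nsmul_zero, nsmul_zero, add_zero]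
  smul_mem' := by
    rintro r c ⟨t, ht, h⟩
    refine ⟨t, ht, ?_⟩
    have e1 : ∑ l, E.act ((r • c) l) (P l) = E.act r (∑ l, E.act (c l) (P l)) := by
      simp [map_sum]
    rw [e1, ← map_nsmul, h, map_zero]

theorem le_finrank {a b : ℂ} (E : EndRing a b) {q ρ : ℕ} (P : Fin q → (curve a b).Point)
    (c : Fin ρ → Fin q → E.O) (hc : LinearIndependent ℂ (fun i l => (c i l : ℂ)))
    (h : ∀ i, E.Relation (c i) P) : ρ ≤ Module.finrank E.O (relMod E P) := by
  have h1 : LinearIndependent E.O (fun i => (⟨c i, h i⟩ : relMod E P)) := by
    rw [Fintype.linearIndependent_iff] at hc ⊢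
    intro g hg i
    have h2 : ∑ i, (g i : ℂ) • (fun l => (c i l : ℂ)) = 0 := by
      funext l
      have h3 := congrArg (fun v : relMod E P => (((v : Fin q → E.O) l : E.O) : ℂ)) hg
      simpa [Finset.sum_apply] using h3
    exact_mod_cast hc _ h2 i
  have h2 := h1.cardinal_le_rank
  have h3 : Module.rank E.O (relMod E P) < Cardinal.aleph0 := by
    refine (Submodule.rank_le _).trans_lt ?_
    rw [rank_fun']
    exact Cardinal.natCast_lt_aleph0
  have h4 := Cardinal.toNat_le_toNat h2 h3
  simpa [Module.finrank] using h4

/-- finitely many points of a curve have an `x`-coordinate which is a root of a polynomial -/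
theorem finite_pts (a b : ℂ) (f : Polynomial ℂ) (hf : f ≠ 0) :
    {P : (curve a b).Point | P = 0 ∨ f.eval (xCoord P) = 0}.Finite := by
  classical
  let co : (curve a b).Point → Option (ℂ × ℂ) := fun P => match P with
    | .zero => none
    | .some x y _ => some (x, y)
  have hco : Function.Injective co := by
    rintro (_ | ⟨x, y, h⟩) (_ | ⟨x', y', h'⟩) hP
    · rfl
    · exact absurd hP (by simp [co])
    · exact absurd hP (by simp [co])
    · have h1 : (x, y) = (x', y') := Option.some.inj hP
      obtain ⟨rfl, rfl⟩ := Prod.mk.inj h1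
      rfl
  refine Set.Finite.of_finite_image (f := co) ?_ hco.injOn
  let S : Finset (Option (ℂ × ℂ)) := insert none ((f.roots.toFinset.biUnion fun x =>
    ((Polynomial.X ^ 2 - Polynomial.C (x ^ 3 + a * x + b)).roots.toFinset.image
      fun y => (x, y))).image some)
  refine S.finite_toSet.subset ?_
  rintro _ ⟨P, hP, rfl⟩
  rcases P with _ | ⟨x, z, hn⟩
  · exact Finset.mem_coe.2 (Finset.mem_insert_self _ _)
  · rcases hP with h0 | h1
    · exact absurd h0 (WeierstrassCurve.Affine.Point.some_ne_zero hn)
    · refine Finset.mem_coe.2 (Finset.mem_insert_of_mem (Finset.mem_image_of_mem _ ?_))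
      refine Finset.mem_biUnion.2 ⟨x, ?_, Finset.mem_image_of_mem _ ?_⟩
      · rw [Multiset.mem_toFinset, Polynomial.mem_roots hf, Polynomial.IsRoot]
        exact h1
      · have h2 : z ^ 2 = x ^ 3 + a * x + b := by
          have h3 := (WeierstrassCurve.Affine.equation_iff _ _).1 hn.1
          linear_combination h3
        have h3 : (Polynomial.X ^ 2 - Polynomial.C (x ^ 3 + a * x + b) : Polynomial ℂ) ≠ 0 :=
          Polynomial.X_pow_sub_C_ne_zero two_pos _
        rw [Multiset.mem_toFinset, Polynomial.mem_roots h3, Polynomial.IsRoot]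
        simp [h2]

/-- a point on the curve with given `x`-coordinate -/
theorem exists_point {a b x : ℂ} (h : 4 * a ^ 3 + 27 * b ^ 2 ≠ 0) :
    ∃ P : (curve a b).Point, P ≠ 0 ∧ xCoord P = x := by
  obtain ⟨y, hy⟩ := IsAlgClosed.exists_pow_nat_eq (x ^ 3 + a * x + b) (n := 2) (by norm_num)
  have hn : (curve a b).Nonsingular x y := by
    rw [WeierstrassCurve.Affine.nonsingular_iff, WeierstrassCurve.Affine.equation_iff]
    refine ⟨by simpa using hy, ?_⟩
    by_contra hcon
    push Not at hcon
    obtain ⟨h1, h2⟩ := hcon
    simp only at h1 h2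
    have h3 : y = 0 := by
      have h5 : (2 : ℂ) * y = 0 := by linear_combination h2
      exact (mul_eq_zero.1 h5).resolve_left two_ne_zero
    rw [h3] at hy
    apply h
    have h4 : x ^ 3 + a * x + b = 0 := by rw [← hy]; ring
    have hA : a = -3 * x ^ 2 := by linear_combination -h1
    have hB : b = 2 * x ^ 3 := by
      rw [hA] at h4
      linear_combination h4
    rw [hA, hB]
    ring
  exact ⟨WeierstrassCurve.Affine.Point.some _ _ hn, WeierstrassCurve.Affine.Point.some_ne_zero _,
    rfl⟩

/-- For each family of fibre products of multisections of powers of elliptic schemes which degenerates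
along the hypersurface `h = 0` of the space of parameters, for all but
`O(H^(q - 1 + Δ / β + ε))` of the integral parameters in a box of size `H` the variety `X_u` is
finite over the base, and satisfies Pink's conjecture. -/
theorem result (K : Subfield ℂ) (κ : Type) [Finite κ] (q N n m : ℕ) (X : Family K κ q N n)
    (h : MvPolynomial (Fin q) ℤ) (e : Fin n → ℕ)
    (hdeg : DegeneratesAlongH m X.G X.A X.B X.c (MvPolynomial.map (Int.castRingHom K) h) e)
    (β : ℕ) (hβ : 0 < β) (hind : IndepP β X.s e)
    (Δ : ℕ) (hΔ : h.totalDegree ≤ Δ) (ε : ℝ) (hε : 0 < ε) :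
    ∃ C : ℝ, ∀ H : ℕ, 1 ≤ H →
      ({u : Fin q → ℤ | (∀ j, |u j| ≤ H) ∧ ¬ (X.FiniteFibres (fun j => (u j : ℂ)) ∧
        X.NonemptyFibres (fun j => (u j : ℂ)) ∧ X.AvoidsSubgroups (fun j => (u j : ℂ)) m ∧
        X.NoAtypical (fun j => (u j : ℂ)) m)}.ncard : ℝ) ≤
          C * (H : ℝ) ^ ((q : ℝ) - 1 + Δ / β + ε) := by
  classical
  obtain ⟨bad, ⟨C, hC⟩, hbad⟩ := familyP K κ q N n m X.G X.homG X.r X.A₄ X.A₆ X.hom₄ X.hom₆ X.A X.B
    X.s X.s_pos X.w X.homB X.homA X.D X.homD X.c h e hdeg β hβ hind Δ hΔ ε hε
  refine ⟨C, fun H hH => ?_⟩
  refine le_trans ?_ (hC H hH)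
  have hfin : (bad ∩ {u : Fin q → ℤ | ∀ j, |u j| ≤ H}).Finite := by
    refine (Set.Finite.subset (box q H).finite_toSet ?_)
    rintro u ⟨-, hu⟩
    exact Finset.mem_coe.2 (mem_box.2 hu)
  have hsub : {u : Fin q → ℤ | (∀ j, |u j| ≤ H) ∧ ¬ (X.FiniteFibres (fun j => (u j : ℂ)) ∧
        X.NonemptyFibres (fun j => (u j : ℂ)) ∧ X.AvoidsSubgroups (fun j => (u j : ℂ)) m ∧
        X.NoAtypical (fun j => (u j : ℂ)) m)} ⊆
      bad ∩ {u : Fin q → ℤ | ∀ j, |u j| ≤ H} := by
    rintro u ⟨huH, hu⟩
    refine ⟨?_, huH⟩
    by_contra hub
    apply hu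
    obtain ⟨hc0, hkey⟩ := hbad u hub
    set u' : Fin q → ℂ := fun j => (u j : ℂ) with hu'
    have heval : ∀ y i (x : ℂ), (X.eqn u' y i).eval x = evalAt K u' (X.c i) *
        (val u' y (X.B i) * x ^ X.s i + ∑ h : Fin (X.s i), val u' y (X.D i h) * x ^ (h : ℕ)) -
        val u' y (X.A i) := by
      intro y i x
      simp [Family.eqn, Polynomial.eval_finsetSum]
    have hNA : X.NoAtypical u' m := by
      intro y hy P hP ρ hρ j0 T hT
      obtain ⟨E, c, hc, hcP⟩ := hρ
      have hP' : ∀ i, (P i = 0 ∧ eval₂ (evalAt K u') y (X.B i) = 0) ∨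
          (P i ≠ 0 ∧ evalAt K u' (X.c i) *
            (eval₂ (evalAt K u') y (X.B i) *
              Pool.Agent.W466.EP.xx (A := val u' y X.A₄) (B := val u' y X.A₆) (P i) ^ X.s i +
              ∑ h : Fin (X.s i), eval₂ (evalAt K u') y (X.D i h) *
                Pool.Agent.W466.EP.xx (A := val u' y X.A₄) (B := val u' y X.A₆) (P i) ^ (h : ℕ)) =
              eval₂ (evalAt K u') y (X.A i)) := by
        intro i
        rcases (hP i).2 with ⟨h1, h2⟩ | ⟨h1, h2⟩
        · exact Or.inl ⟨h1, h2⟩
        · refine Or.inr ⟨h1, ?_⟩
          rw [heval, xCoord_eq] at h2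
          exact sub_eq_zero.1 h2
      have h2 := le_finrank E P c hc hcP
      by_cases hy0 : y j0 = 0
      · -- the ratios vanish
        have hTe : T = ∅ := by
          by_contra hne
          obtain ⟨j, hj⟩ := Finset.nonempty_iff_ne_empty.2 hne
          have h3 := hT.ne_zero ⟨j, hj⟩
          apply h3
          change y j / y j0 = 0
          rw [hy0, div_zero]
        obtain ⟨j1, hj1⟩ : ∃ j, y j ≠ 0 := by
          by_contra h
          push Not at h
          exact hy.1 (funext h)
        have h1 := hkey y hy P hP' (toE E) (relMod E P) (fun a ha => ha) j1 ∅ hj1 (by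
          subst hTe
          have h4 : (fun j : (∅ : Finset (Fin (N + 1))) => y j / y j1) =
            (fun j : (∅ : Finset (Fin (N + 1))) => y j / y j0) := by
            funext j
            exact absurd j.2 (Finset.notMem_empty _)
          rw [h4]
          exact hT)
        have h3 : (∅ : Finset (Fin (N + 1))).card + Module.finrank E.O (relMod E P) ≤ m := h1
        rw [hTe]
        omega
      · have h1 := hkey y hy P hP' (toE E) (relMod E P) (fun a ha => ha) j0 T hy0 hT
        have h3 : T.card + Module.finrank E.O (relMod E P) ≤ m := h1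
        omega
    refine ⟨?_, ?_, ?_, hNA⟩
    · intro y hy
      by_cases h0 : ∀ i, X.eqn u' y i ≠ 0
      · refine (Set.Finite.pi (t := fun i => {P : (X.fibre u' y).Point |
          P = 0 ∨ (X.eqn u' y i).eval (xCoord P) = 0}) fun i => finite_pts _ _ _ (h0 i)).subset ?_
        intro P hP i _
        rcases (hP i).2 with ⟨h1, -⟩ | ⟨-, h2⟩
        · exact Or.inl h1
        · exact Or.inr h2
      · push Not at h0
        obtain ⟨i, hi⟩ := h0
        refine Set.Finite.subset Set.finite_empty ?_
        intro P hP
        exact absurd hi (hP i).1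
    · intro y hy hsm hne
      have h1 : ∀ i, ∃ P : (X.fibre u' y).Point, (P = 0 ∧ val u' y (X.B i) = 0) ∨
          (P ≠ 0 ∧ (X.eqn u' y i).eval (xCoord P) = 0) := by
        intro i
        by_cases h0 : val u' y (X.B i) = 0
        · exact ⟨0, Or.inl ⟨rfl, h0⟩⟩
        · have hdeg0 : (X.eqn u' y i).degree ≠ 0 := by
            intro hd
            have h3 : (X.eqn u' y i).coeff (X.s i) = 0 := by
              apply Polynomial.coeff_eq_zero_of_degree_lt
              rw [hd]
              exact_mod_cast X.s_pos i
            apply mul_ne_zero (hc0 i) h0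
            rw [← h3]
            unfold Family.eqn
            rw [Polynomial.coeff_sub, Polynomial.coeff_C_mul, Polynomial.coeff_add,
              Polynomial.coeff_C_mul_X_pow, if_pos rfl, Polynomial.finsetSum_coeff,
              Finset.sum_eq_zero, add_zero, Polynomial.coeff_C, if_neg (X.s_pos i).ne', sub_zero]
            intro h _
            rw [Polynomial.coeff_C_mul_X_pow, if_neg h.2.ne']
          obtain ⟨x, hx⟩ := IsAlgClosed.exists_root _ hdeg0
          obtain ⟨P, hP0, hPx⟩ := exists_point (x := x) hsm
          exact ⟨P, Or.inr ⟨hP0, by rw [hPx]; exact hx⟩⟩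
      choose P hP using h1
      exact ⟨P, fun i => ⟨hne i, hP i⟩⟩
    · intro y hy P hP hs
      have h1 := hNA y hy P hP (m + 1) hs 0 ∅ (algebraicIndependent_empty_type_iff.2
        (algebraMap K ℂ).injective)
      rw [Finset.card_empty] at h1
      omega
  exact_mod_cast Set.ncard_le_ncard hsub hfin

end Pool.Agent.Results.MP_28d749_ag.FamiliesOfMultisections
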