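import Pool.Agent.Results.MP_28d749_ag.FamiliesOfMultisections
import Pool.Agent.X134.Win.MembI

/-!
# MP_28d749_ag: Pink's conjecture for all the members in short cubes, of all families over a countable
field of fibre products of multisections of elliptic schemes which degenerate along a hypersurface

Let `K ⊂ ℂ` be a countable field, `q ≥ 1` and `ρ ≥ 0` be fixed, `v ≥ 1` a sequence of exponent of
convergence at most `τ` (`τ = 0` for `v_l = b ^ l`, `τ = 1 / b` for `v_l = (l + 1) ^ b`) and `θ < 1`.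

**Theorem.** There is one set `E` in `ℝ ^ q` of Hausdorff dimension at most
`(q - 1 + ρ + τ) / (1 - θ)` such that for each `α` outside of `E` the following holds for ALL families
`X_u ⊆ 𝒜_u` over `K` (any `n` and `m`) of fibre products of `n` multisections of elliptic schemes over
projective sets `B_u` with `q` parameters which degenerate along a hypersurface `h = 0` of degree `Δ` as
in our `FamiliesOfMultisections` (see there; `2 e_i > s_i`, and `μ (e_i / s_i - e_j / s_j)` is not an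
integer for `i ≠ j` and `μ` not divisible by `β`) with `Δ ≤ ρ β`: for all large `l`, for ALL integral
vectors `u` in the cube with the centre `v_l α` and the side `2 v_l ^ θ`
* `X_u → B_u` has finite fibres, and over the open set where `E_y` is smooth and the equations are
  nontrivial the fibres are not empty,
* `X_u` does not meet the union `𝒜_u^[>m]` of all algebraic subgroups of codimension `> m` of all the
  fibres, as in Pink's conjecture, and for every `c` the intersection `X_u ∩ 𝒜_u^[≥c]` has dimension at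
  most `m - c`.

The set `E` is small (of dimension less than `q`) if `θ q + ρ + τ < 1`, and then almost all `α` are
outside of `E`. For each `ρ > 0` the numbers `β` can be large primes (all `s_i = β`, and `e_i > β / 2`
incongruent modulo `β`), and for `n = 1` any `β` is allowed. The number of the integral points in the
cubes is about `(2 v_l ^ θ) ^ q`.

In `FamiliesOfMultisections` the number of the exceptional parameters in the box of size `H` is
`O(H ^ (q - 1 + Δ / β + ε))`; they could contain all the members in short cubes. Proof: a covering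
argument (`Pool.Agent.X174.windowsVec`), and there are only countably many families.
-/

set_option autoImplicit false

namespace Pool.Agent.Results.MP_28d749_ag.MembersInCubes

open MvPolynomial MeasureTheory Pool.Agent.X295 Pool.Agent.X295.Pink
open Pool.Agent.X295.Leg (DegeneratesAlongH)
open FamiliesOfMultisections (Family Form)

/-- the exponent of convergence of the sequence `v` is at most `τ` -/
def ExpLe (v : ℕ → ℝ) (τ : ℝ) : Prop := ∀ t : ℝ, τ < t → Summable (fun n : ℕ => (v n) ^ (-t))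

/-- for all degenerating families `X` with `q` parameters over `K`, with `Δ ≤ ρ β`: for all large `l` all
members with integral parameter vectors in the cube with the centre `v_l α` and the side `2 v_l ^ θ`
satisfy Pink's conjecture -/
def AllMembers (K : Subfield ℂ) (q : ℕ) (ρ : ℝ) (v : ℕ → ℝ) (α : Fin q → ℝ) (θ : ℝ) : Prop :=
  ∀ (a N n m : ℕ) (X : Family K (Fin a) q N n) (h : MvPolynomial (Fin q) ℤ) (e : Fin n → ℕ),
    DegeneratesAlongH m X.G X.A X.B X.c (MvPolynomial.map (Int.castRingHom K) h) e →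
    ∀ (β : ℕ), 0 < β → IndepP β X.s e → (h.totalDegree : ℝ) ≤ ρ * β →
    ∃ l₀ : ℕ, ∀ l : ℕ, l₀ ≤ l → ∀ u : Fin q → ℤ, (∀ j, |(u j : ℝ) - α j * v l| ≤ (v l) ^ θ) →
      X.FiniteFibres (fun j => (u j : ℂ)) ∧ X.NonemptyFibres (fun j => (u j : ℂ)) ∧
        X.AvoidsSubgroups (fun j => (u j : ℂ)) m ∧ X.NoAtypical (fun j => (u j : ℂ)) m

section Proof

theorem countable_family (K : Subfield ℂ) [Countable K] (a q N n : ℕ) :
    Countable (Family K (Fin a) q N n) := by
  have h0 := Pool.Agent.X134.Win.countable_mvPolynomial (Fin q) K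
  have h1 : Countable (Form K q N) := Pool.Agent.X134.Win.countable_form K (Fin (N + 1)) q
  have h2 : Countable (Σ s : Fin n → ℕ, (Fin a → Form K q N) × ℕ × Form K q N × Form K q N ×
    (Fin n → ℕ) × (Fin n → Form K q N) × (Fin n → Form K q N) × (∀ i, Fin (s i) → Form K q N) ×
      (Fin n → MvPolynomial (Fin q) K)) := inferInstance
  refine Function.Injective.countable (f := fun X : Family K (Fin a) q N n =>
    ((⟨X.s, X.G, X.r, X.A₄, X.A₆, X.w, X.B, X.A, X.D, X.c⟩ : Σ s : Fin n → ℕ,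
      (Fin a → Form K q N) × ℕ × Form K q N × Form K q N ×
      (Fin n → ℕ) × (Fin n → Form K q N) × (Fin n → Form K q N) × (∀ i, Fin (s i) → Form K q N) ×
        (Fin n → MvPolynomial (Fin q) K)))) ?_
  rintro ⟨⟩ ⟨⟩ h
  simp only [Sigma.mk.injEq] at h
  obtain ⟨rfl, h⟩ := h
  have h' := eq_of_heq h
  simp only [Prod.mk.injEq] at h'
  obtain ⟨rfl, rfl, rfl, rfl, rfl, rfl, rfl, rfl, rfl⟩ := h'
  rfl

/-- the data -/
abbrev Idx (K : Subfield ℂ) (q : ℕ) : Type :=
  Σ a : ℕ, Σ N : ℕ, Σ n : ℕ, Family K (Fin a) q N n × ℕ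

/-- the hypotheses for the data -/
def Hyp (K : Subfield ℂ) (q : ℕ) (ρ : ℝ) (x : Idx K q) : Prop :=
  match x with
  | ⟨_, _, _, X, m⟩ => ∃ (h : MvPolynomial (Fin q) ℤ) (e : Fin _ → ℕ) (β : ℕ),
    DegeneratesAlongH m X.G X.A X.B X.c (MvPolynomial.map (Int.castRingHom K) h) e ∧ 0 < β ∧
      IndepP β X.s e ∧ (h.totalDegree : ℝ) ≤ ρ * β

/-- the conclusion for the data -/
def Good (K : Subfield ℂ) (q : ℕ) (x : Idx K q) (u : Fin q → ℤ) : Prop :=
  match x with
  | ⟨_, _, _, X, m⟩ => X.FiniteFibres (fun j => (u j : ℂ)) ∧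
      X.NonemptyFibres (fun j => (u j : ℂ)) ∧ X.AvoidsSubgroups (fun j => (u j : ℂ)) m ∧
        X.NoAtypical (fun j => (u j : ℂ)) m

end Proof

/-- **Theorem.** See the header. -/
theorem result :
    (∀ (K : Subfield ℂ) [Countable K] (q : ℕ) (ρ : ℝ), 0 < q → 0 ≤ ρ → ∀ (v : ℕ → ℝ) (τ θ : ℝ),
      (∀ l, 1 ≤ v l) → 0 ≤ τ → ExpLe v τ → θ < 1 →
      ∃ E : Set (Fin q → ℝ),
        dimH E ≤ ENNReal.ofReal (((q : ℝ) - 1 + ρ + τ) / (1 - θ)) ∧
        ∀ α : Fin q → ℝ, α ∉ E → AllMembers K q ρ v α θ) ∧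
    (∀ b : ℝ, 0 < b → ExpLe (fun n : ℕ => ((n : ℝ) + 1) ^ b) (1 / b)) ∧
    (∀ b : ℝ, 1 < b → ExpLe (fun n : ℕ => b ^ n) 0) := by
  classical
  refine ⟨fun K _ q ρ hq hρ v τ θ hv hτ hE hθ => ?_, fun b hb => Pool.Agent.Y854.GM.expLe_pow b hb,
    fun b hb => Pool.Agent.Y854.GM.expLe_geom b hb⟩
  have hcf := countable_family K
  have hs : (0 : ℝ) ≤ (q : ℝ) - 1 + ρ := by
    have h1 : (1 : ℝ) ≤ q := by exact_mod_cast hq
    linarith
  obtain ⟨E, hE1, hE2⟩ := Pool.Agent.X134.Win.membV_c (ι := Idx K q)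
    (fun x u => Hyp K q ρ x → Good K q x u) hs (by
      rintro ⟨a, N, n, X, m⟩ ε hε
      by_cases hyp : Hyp K q ρ ⟨a, N, n, X, m⟩
      · obtain ⟨h, e, β, h1, h2, h3, h4⟩ := id hyp
        obtain ⟨C, hC⟩ := FamiliesOfMultisections.result K (Fin a) q N n m X h e h1 β h2 h3
          h.totalDegree le_rfl ε hε
        refine ⟨|C|, fun H hH => ?_⟩
        have h10 : {u : Fin q → ℤ | (∀ j, |u j| ≤ H) ∧
            ¬ (Hyp K q ρ ⟨a, N, n, X, m⟩ → Good K q ⟨a, N, n, X, m⟩ u)} =
            {u : Fin q → ℤ | (∀ j, |u j| ≤ H) ∧ ¬ (X.FiniteFibres (fun j => (u j : ℂ)) ∧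
              X.NonemptyFibres (fun j => (u j : ℂ)) ∧ X.AvoidsSubgroups (fun j => (u j : ℂ)) m ∧
                X.NoAtypical (fun j => (u j : ℂ)) m)} := by
          ext u
          exact ⟨fun hu => ⟨hu.1, fun hg => hu.2 fun _ => hg⟩, fun hu => ⟨hu.1, fun hg => hu.2 (hg hyp)⟩⟩
        rw [h10]
        have hβ : (0 : ℝ) < β := by exact_mod_cast h2
        have hΔ : (h.totalDegree : ℝ) / β ≤ ρ := by rwa [div_le_iff₀ hβ]
        have hH1 : (1 : ℝ) ≤ (H : ℝ) := by exact_mod_cast hH
        refine (hC H hH).trans ?_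
        calc C * (H : ℝ) ^ ((q : ℝ) - 1 + (h.totalDegree : ℝ) / β + ε)
            ≤ |C| * (H : ℝ) ^ ((q : ℝ) - 1 + (h.totalDegree : ℝ) / β + ε) :=
              mul_le_mul_of_nonneg_right (le_abs_self _) (Real.rpow_nonneg (Nat.cast_nonneg _) _)
          _ ≤ |C| * (H : ℝ) ^ ((q : ℝ) - 1 + ρ + ε) :=
              mul_le_mul_of_nonneg_left (Real.rpow_le_rpow_of_exponent_le hH1 (by linarith))
                (abs_nonneg _)
      · refine ⟨0, fun H _ => ?_⟩
        have h10 : {u : Fin q → ℤ | (∀ j, |u j| ≤ H) ∧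
            ¬ (Hyp K q ρ ⟨a, N, n, X, m⟩ → Good K q ⟨a, N, n, X, m⟩ u)} = ∅ :=
          Set.eq_empty_iff_forall_notMem.2 fun u hu => hu.2 fun h => absurd h hyp
        rw [h10, Set.ncard_empty, Nat.cast_zero, zero_mul]) hv hτ hE hθ
  refine ⟨E, hE1, fun α hα => ?_⟩
  intro a N n m X h e h1 β h2 h3 h4
  obtain ⟨l₀, hl₀⟩ := hE2 α hα ⟨a, N, n, X, m⟩
  exact ⟨l₀, fun l hl u hu => hl₀ l hl u hu ⟨h, e, β, h1, h2, h3, h4⟩⟩

end Pool.Agent.Results.MP_28d749_ag.MembersInCubes
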