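import Pool.Agent.Results.MP_28d749_ag.MembersInCubes
import Pool.Agent.X134.Win.MembN

/-!
# MP_28d749_ag: Pink's conjecture for all the members near generic targets, of all families over a
countable field of fibre products of multisections of elliptic schemes which degenerate along a
hypersurface

Let `K ⊂ ℂ` be a countable field, `q ≥ 1` and `ρ ≥ 0` be fixed, `f` an arbitrary map of the integral
vectors `u = (u_1, …, u_q)` to a metric space `Y` (for example the embedding in the `p`-adic vectors, or
in the product over several primes, or the direction `u / |u|`, or these maps together) and `η₀ ≥ 0`.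

**Theorem.** There is one set `E ⊆ Y` of Hausdorff dimension at most `(q - 1 + ρ) / η₀` (of dimension
zero if `q = 1` and `ρ = 0`, also for `η₀ = 0`) such that for each target `y` outside of `E` the
following holds for all `η > η₀` and ALL families `X_u ⊆ 𝒜_u` over `K` (any `n` and `m`) of fibre
products of `n` multisections of elliptic schemes over projective sets `B_u` with `q` parameters which
degenerate along a hypersurface `h = 0` of degree `Δ` as in our `FamiliesOfMultisections` (see there;
`2 e_i > s_i`, and `μ (e_i / s_i - e_j / s_j)` is not an integer for `i ≠ j` and `μ` not divisible by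
`β`) with `Δ ≤ ρ β`: for all large `H`, for ALL integral vectors `u` with `|u| ≤ H` and
`dist (f u) y ≤ H ^ (-η)`
* `X_u → B_u` has finite fibres, and over the open set where `E_y` is smooth and the equations are
  nontrivial the fibres are not empty,
* `X_u` does not meet the union `𝒜_u^[>m]` of all algebraic subgroups of codimension `> m` of all the
  fibres, as in Pink's conjecture, and for every `c` the intersection `X_u ∩ 𝒜_u^[≥c]` has dimension at
  most `m - c`.

For example let `Y` be the space of the `p`-adic integral vectors, of dimension `q`, and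
`1 - (1 - ρ) / q < η₀ < η < 1`. Then `E` has dimension less than `q`, so it is a null set, and there are
about `(2 H ^ (1 - η)) ^ q` integral vectors `u` with `|u| ≤ H` and `|u - y|_p ≤ H ^ (-η)`, all of them
without exception. For each `ρ > 0` the numbers `β` can be large primes (all `s_i = β`, and `e_i > β / 2`
incongruent modulo `β`), and for `n = 1` any `β` is allowed.

In `FamiliesOfMultisections` the number of the exceptional parameters in the box of size `H` is
`O(H ^ (q - 1 + Δ / β + ε))`; they could contain all the members near the target. In our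
`MembersInCubes` the members lie in short cubes. Proof: a covering argument, and there are only countably
many families.
-/

set_option autoImplicit false

namespace Pool.Agent.Results.MP_28d749_ag.MembersNearTargets

open MvPolynomial MeasureTheory Pool.Agent.X295 Pool.Agent.X295.Pink
open Pool.Agent.X295.Leg (DegeneratesAlongH)
open FamiliesOfMultisections (Family Form)
open MembersInCubes (countable_family Idx Hyp Good)

/-- for all degenerating families `X` with `q` parameters over `K`, with `Δ ≤ ρ β`: for all large `H` all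
members with integral parameter vectors `u` with `|u| ≤ H` and `dist (f u) y ≤ H ^ (-η)` satisfy Pink's
conjecture -/
def AllMembers (K : Subfield ℂ) (q : ℕ) (ρ : ℝ) {Y : Type} [MetricSpace Y] (f : (Fin q → ℤ) → Y)
    (y : Y) (η : ℝ) : Prop :=
  ∀ (a N n m : ℕ) (X : Family K (Fin a) q N n) (h : MvPolynomial (Fin q) ℤ) (e : Fin n → ℕ),
    DegeneratesAlongH m X.G X.A X.B X.c (MvPolynomial.map (Int.castRingHom K) h) e →
    ∀ (β : ℕ), 0 < β → IndepP β X.s e → (h.totalDegree : ℝ) ≤ ρ * β →
    ∃ H₀ : ℕ, ∀ H : ℕ, H₀ ≤ H → ∀ u : Fin q → ℤ, (∀ j, |u j| ≤ (H : ℤ)) →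
      dist (f u) y ≤ (H : ℝ) ^ (-η) →
      X.FiniteFibres (fun j => (u j : ℂ)) ∧ X.NonemptyFibres (fun j => (u j : ℂ)) ∧
        X.AvoidsSubgroups (fun j => (u j : ℂ)) m ∧ X.NoAtypical (fun j => (u j : ℂ)) m

/-- **Theorem.** See the header. -/
theorem result (K : Subfield ℂ) [Countable K] (q : ℕ) (ρ : ℝ) (hq : 0 < q) (hρ : 0 ≤ ρ) (Y : Type)
    [MetricSpace Y] (f : (Fin q → ℤ) → Y) (η₀ : ℝ) (hη₀ : 0 ≤ η₀) :
    ∃ E : Set Y, dimH E ≤ ENNReal.ofReal ((q : ℝ) - 1 + ρ) / ENNReal.ofReal η₀ ∧
      ∀ y : Y, y ∉ E → ∀ η : ℝ, η₀ < η → AllMembers K q ρ f y η := by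
  classical
  have hcf := countable_family K
  have hs : (0 : ℝ) ≤ (q : ℝ) - 1 + ρ := by
    have h1 : (1 : ℝ) ≤ q := by exact_mod_cast hq
    linarith
  obtain ⟨E, hE1, hE2⟩ := Pool.Agent.X134.Win.nearV_all (ι := Idx K q)
    (fun x u => Hyp K q ρ x → Good K q x u) hs (by
      rintro ⟨a, N, n, X, m⟩ ε hε
      by_cases hyp : Hyp K q ρ ⟨a, N, n, X, m⟩
      · obtain ⟨h, e, β, h1, h2, h3, h4⟩ := id hyp
        obtain ⟨C, hC⟩ := FamiliesOfMultisections.result K (Fin a) q N n m X h e h1 β h2 h3
          h.totalDegree le_rfl ε hε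
        refine ⟨|C|, fun H hH => ?_⟩
        have h10 : {u : Fin q → ℤ | (∀ j, |u j| ≤ H) ∧
            ¬ (Hyp K q ρ ⟨a, N, n, X, m⟩ → Good K q ⟨a, N, n, X, m⟩ u)} =
            {u : Fin q → ℤ | (∀ j, |u j| ≤ H) ∧ ¬ (X.FiniteFibres (fun j => (u j : ℂ)) ∧
              X.NonemptyFibres (fun j => (u j : ℂ)) ∧ X.AvoidsSubgroups (fun j => (u j : ℂ)) m ∧
                X.NoAtypical (fun j => (u j : ℂ)) m)} := by
          ext u
          exact ⟨fun hu => ⟨hu.1, fun hg => hu.2 fun _ => hg⟩, fun hu => ⟨hu.1, fun hg => hu.2 (hg hyp)⟩⟩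
        rw [h10]
        have hβ : (0 : ℝ) < β := by exact_mod_cast h2
        have hΔ : (h.totalDegree : ℝ) / β ≤ ρ := by rwa [div_le_iff₀ hβ]
        have hH1 : (1 : ℝ) ≤ (H : ℝ) := by exact_mod_cast hH
        refine (hC H hH).trans ?_
        calc C * (H : ℝ) ^ ((q : ℝ) - 1 + (h.totalDegree : ℝ) / β + ε)
            ≤ |C| * (H : ℝ) ^ ((q : ℝ) - 1 + (h.totalDegree : ℝ) / β + ε) :=
              mul_le_mul_of_nonneg_right (le_abs_self _) (Real.rpow_nonneg (Nat.cast_nonneg _) _)
          _ ≤ |C| * (H : ℝ) ^ ((q : ℝ) - 1 + ρ + ε) :=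
              mul_le_mul_of_nonneg_left (Real.rpow_le_rpow_of_exponent_le hH1 (by linarith))
                (abs_nonneg _)
      · refine ⟨0, fun H _ => ?_⟩
        have h10 : {u : Fin q → ℤ | (∀ j, |u j| ≤ H) ∧
            ¬ (Hyp K q ρ ⟨a, N, n, X, m⟩ → Good K q ⟨a, N, n, X, m⟩ u)} = ∅ :=
          Set.eq_empty_iff_forall_notMem.2 fun u hu => hu.2 fun h => absurd h hyp
        rw [h10, Set.ncard_empty, Nat.cast_zero, zero_mul]) f hη₀
  refine ⟨E, hE1, fun y hy η hη => ?_⟩
  intro a N n m X h e h1 β h2 h3 h4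
  obtain ⟨H₀, hH₀⟩ := hE2 y hy η hη ⟨a, N, n, X, m⟩
  exact ⟨H₀, fun H hH u hu hd => hH₀ H hH u hu hd ⟨h, e, β, h1, h2, h3, h4⟩⟩

end Pool.Agent.Results.MP_28d749_ag.MembersNearTargets
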