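import Pool.Agent.Results.MP_28d749_ag.MembersInCubes
import Pool.Agent.X67.LF.Memb

/-!
# MP_28d749_ag: Pink's conjecture for all the members at which generic linear forms are small, of all families
# over a countable field of fibre products of multisections of elliptic schemes which degenerate along a
# hypersurface

Let `K ⊂ ℂ` be a countable field, `q ≥ 1` and `ρ ≥ 0` be fixed, `θ, y ∈ ℝ ^ k`, `θ_i ≥ 0`,
`θ_1 + ... + θ_k > q - 1 + ρ`.

**Theorem.** For almost all systems `Λ_1, ..., Λ_k` of real linear forms in `q` variables the following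
holds for ALL families `X_u ⊆ 𝒜_u` over `K` (any `n` and `m`) of fibre products of `n` multisections of
elliptic schemes over projective sets `B_u` with `q` parameters which degenerate along a hypersurface `h = 0`
of degree `Δ` as in our `FamiliesOfMultisections` (see there; `2 e_i > s_i`, and `μ (e_i / s_i - e_j / s_j)`
is not an integer for `i ≠ j` and `μ` not divisible by `β`) with `Δ ≤ ρ β`: for ALL but finitely many integral
vectors `u ≠ 0` such that `Λ_i u` is within `|u| ^ (-θ_i)` of `y_i` modulo `1` for all `i`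
* `X_u → B_u` has finite fibres, and over the open set where `E_y` is smooth and the equations are
  nontrivial the fibres are not empty,
* `X_u` does not meet the union `𝒜_u^[>m]` of all algebraic subgroups of codimension `> m` of all the
  fibres, as in Pink's conjecture, and for every `c` the intersection `X_u ∩ 𝒜_u^[≥c]` has dimension at
  most `m - c`.

By Dirichlet's theorem every system of `k` forms has infinitely many such `u` for `y = 0` and `θ_i = q / k`,
for example the best approximations; if `ρ < 1` the theorem applies to them. For each `ρ > 0` the numbers `β`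
can be large primes (all `s_i = β`, and `e_i > β / 2` incongruent modulo `β`), and for `n = 1` any `β` is
allowed.

In `FamiliesOfMultisections` the number of the exceptional parameters in the box of size `H` is
`O(H ^ (q - 1 + Δ / β + ε))`; they could contain all these `u`. Proof: a Borel-Cantelli argument for linear
forms (`Pool.Agent.X67.LF`), and there are only countably many families.
-/

set_option autoImplicit false

namespace Pool.Agent.Results.MP_28d749_ag.SmallLinearForms

open MvPolynomial MeasureTheory Pool.Agent.X295 Pool.Agent.X295.Pink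
open Pool.Agent.X295.Leg (DegeneratesAlongH)
open FamiliesOfMultisections (Family Form)
open MembersInCubes (countable_family Idx Hyp Good)
open Pool.Agent.X67.LF (SmallAtVec memb_forms_vec)

/-- for all degenerating families `X` with `q` parameters over `K`, with `Δ ≤ ρ β`: all but finitely many
members with nonzero integral parameter vectors `u` at which the forms `Λ` are small satisfy Pink's
conjecture -/
def AllMembers (K : Subfield ℂ) (q : ℕ) (ρ : ℝ) {k : ℕ} (Λ : Fin k → Fin q → ℝ) (θ y : Fin k → ℝ) :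
    Prop :=
  ∀ (a N n m : ℕ) (X : Family K (Fin a) q N n) (h : MvPolynomial (Fin q) ℤ) (e : Fin n → ℕ),
    DegeneratesAlongH m X.G X.A X.B X.c (MvPolynomial.map (Int.castRingHom K) h) e →
    ∀ (β : ℕ), 0 < β → IndepP β X.s e → (h.totalDegree : ℝ) ≤ ρ * β →
    {u : Fin q → ℤ | u ≠ 0 ∧ SmallAtVec Λ θ y u ∧
      ¬ (X.FiniteFibres (fun j => (u j : ℂ)) ∧ X.NonemptyFibres (fun j => (u j : ℂ)) ∧
        X.AvoidsSubgroups (fun j => (u j : ℂ)) m ∧ X.NoAtypical (fun j => (u j : ℂ)) m)}.Finite

/-- **Theorem.** See the header. -/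
theorem result (K : Subfield ℂ) [Countable K] (q : ℕ) (ρ : ℝ) (hq : 0 < q) (hρ : 0 ≤ ρ) (k : ℕ)
    (θ y : Fin k → ℝ) (hθ : ∀ i, 0 ≤ θ i) (hsum : (q : ℝ) - 1 + ρ < ∑ i, θ i) :
    ∀ᵐ Λ : Fin k → Fin q → ℝ, AllMembers K q ρ Λ θ y := by
  classical
  have hcf := countable_family K
  have hs : (0 : ℝ) ≤ (q : ℝ) - 1 + ρ := by
    have h1 : (1 : ℝ) ≤ q := by exact_mod_cast hq
    linarith
  have key := memb_forms_vec (ι := Idx K q)
    (fun x u => Hyp K q ρ x → Good K q x u) hs (by
      rintro ⟨a, N, n, X, m⟩ ε hε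
      by_cases hyp : Hyp K q ρ ⟨a, N, n, X, m⟩
      · obtain ⟨h, e, β, h1, h2, h3, h4⟩ := id hyp
        obtain ⟨C, hC⟩ := FamiliesOfMultisections.result K (Fin a) q N n m X h e h1 β h2 h3
          h.totalDegree le_rfl ε hε
        refine ⟨|C|, fun H hH => ?_⟩
        have h10 : {u : Fin q → ℤ | (∀ j, |u j| ≤ H) ∧
            ¬ (Hyp K q ρ ⟨a, N, n, X, m⟩ → Good K q ⟨a, N, n, X, m⟩ u)} =
            {u : Fin q → ℤ | (∀ j, |u j| ≤ H) ∧ ¬ (X.FiniteFibres (fun j => (u j : ℂ)) ∧
              X.NonemptyFibres (fun j => (u j : ℂ)) ∧ X.AvoidsSubgroups (fun j => (u j : ℂ)) m ∧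
                X.NoAtypical (fun j => (u j : ℂ)) m)} := by
          ext u
          exact ⟨fun hu => ⟨hu.1, fun hg => hu.2 fun _ => hg⟩, fun hu => ⟨hu.1, fun hg => hu.2 (hg hyp)⟩⟩
        rw [h10]
        have hβ : (0 : ℝ) < β := by exact_mod_cast h2
        have hΔ : (h.totalDegree : ℝ) / β ≤ ρ := by rwa [div_le_iff₀ hβ]
        have hH1 : (1 : ℝ) ≤ (H : ℝ) := by exact_mod_cast hH
        refine (hC H hH).trans ?_
        calc C * (H : ℝ) ^ ((q : ℝ) - 1 + (h.totalDegree : ℝ) / β + ε)
            ≤ |C| * (H : ℝ) ^ ((q : ℝ) - 1 + (h.totalDegree : ℝ) / β + ε) :=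
              mul_le_mul_of_nonneg_right (le_abs_self _) (Real.rpow_nonneg (Nat.cast_nonneg _) _)
          _ ≤ |C| * (H : ℝ) ^ ((q : ℝ) - 1 + ρ + ε) :=
              mul_le_mul_of_nonneg_left (Real.rpow_le_rpow_of_exponent_le hH1 (by linarith))
                (abs_nonneg _)
      · refine ⟨0, fun H _ => ?_⟩
        have h10 : {u : Fin q → ℤ | (∀ j, |u j| ≤ H) ∧
            ¬ (Hyp K q ρ ⟨a, N, n, X, m⟩ → Good K q ⟨a, N, n, X, m⟩ u)} = ∅ :=
          Set.eq_empty_iff_forall_notMem.2 fun u hu => hu.2 fun h => absurd h hyp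
        rw [h10, Set.ncard_empty, Nat.cast_zero, zero_mul]) θ y hθ hsum
  filter_upwards [key] with Λ hΛ
  intro a N n m X h e h1 β h2 h3 h4
  refine (hΛ ⟨a, N, n, X, m⟩).subset ?_
  rintro u ⟨h10, h11, h12⟩
  exact ⟨h10, h11, fun h13 => h12 (h13 ⟨h, e, β, h1, h2, h3, h4⟩)⟩

end Pool.Agent.Results.MP_28d749_ag.SmallLinearForms
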